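import Pool.Agent.Helper72_Cut.Statements

set_option autoImplicit false

open Finset

namespace H72C.Helper22

lemma diff01_symm {n : ℕ} {a a' : ZMod n} (h : diff01 a a') : diff01 a' a := by
  rcases h with ⟨h1, h2⟩ | ⟨h1, h2⟩
  · exact Or.inr ⟨h2, h1⟩
  · exact Or.inl ⟨h2, h1⟩

lemma same01_symm {n : ℕ} {a a' : ZMod n} (h : same01 a a') : same01 a' a := by
  rcases h with ⟨h1, h2⟩ | ⟨h1, h2⟩
  · exact Or.inl ⟨h2, h1⟩
  · exact Or.inr ⟨h2, h1⟩

lemma adjG_symm {P : Par} {x y : Hx P} (h : adjG P x y) : adjG P y x := by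
  obtain ⟨hg, h⟩ := h
  refine ⟨hg.symm, ?_⟩
  rcases h with ⟨h1, h2, h3⟩ | ⟨h1, h2⟩ | ⟨h1, h2⟩
  · left
    refine ⟨h1.symm, fun h => h2 ⟨h.1.symm, h.2.symm⟩, fun h => h3 ⟨?_, diff01_symm h.2⟩⟩
    rw [h1]; exact h.1
  · right; right
    refine ⟨h1, ?_⟩
    rw [← hg]; exact h2
  · right; left
    refine ⟨h1, ?_⟩
    rw [← hg]; exact h2

lemma crossR_symm {P : Par} {x y : Hx P} (h : crossR P x y) : crossR P y x :=
  ⟨h.1.symm, h.2.2.1, h.2.1, same01_symm h.2.2.2⟩

lemma adjR_symm {P : Par} {x y : Vx P} (h : adjR P x y) : adjR P y x := by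
  rcases x with x | i <;> rcases y with y | i'
  · rcases h with h | h
    · exact Or.inl (adjG_symm h)
    · exact Or.inr (crossR_symm h)
  · exact h
  · exact h
  · exact Ne.symm h

lemma adjG_irrefl {P : Par} (x : Hx P) : ¬ adjG P x x := by
  rintro ⟨-, ⟨-, h, -⟩ | ⟨h, -⟩ | ⟨h, -⟩⟩
  · exact h ⟨rfl, rfl⟩
  · omega
  · omega

lemma adjR_irrefl {P : Par} (x : Vx P) : ¬ adjR P x x := by
  rcases x with x | i
  · rintro (h | h)
    · exact adjG_irrefl x h
    · exact h.1 rfl
  · intro h; exact h rfl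

theorem adj : ADJ_stmt := by
  intro P x y
  unfold gr
  rw [SimpleGraph.fromRel_adj]
  constructor
  · rintro ⟨-, h | h⟩
    · exact h
    · exact adjR_symm h
  · intro h
    refine ⟨?_, Or.inl h⟩
    rintro rfl
    exact adjR_irrefl x h

/-! ## Counting -/

lemma card_val_lt {n : ℕ} [NeZero n] {w : ℕ} (hw : w ≤ n) :
    (univ.filter fun c : ZMod n => ZMod.val c < w).card = w := by
  have h : (range w).card = (univ.filter fun c : ZMod n => ZMod.val c < w).card := by
    apply Finset.card_nbij' (fun k : ℕ => (k : ZMod n)) ZMod.val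
    · intro k hk
      have hk' : k < w := by simpa using hk
      simp only [coe_filter, mem_univ, true_and, Set.mem_ofPred_eq]
      rw [ZMod.val_cast_of_lt (hk'.trans_le hw)]
      exact hk'
    · intro c hc
      simpa using hc
    · intro k hk
      have hk' : k < w := by simpa using hk
      exact ZMod.val_cast_of_lt (hk'.trans_le hw)
    · intro c _
      exact ZMod.natCast_zmod_val c
  rw [← h, card_range]

lemma card_val_sub {n : ℕ} [NeZero n] {w : ℕ} (hw : w ≤ n) (a : ZMod n) :
    (univ.filter fun c : ZMod n => ZMod.val (c - a) < w).card = w := by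
  refine (?_ : _ = _).trans (card_val_lt hw)
  apply Finset.card_bij (fun c _ => c - a)
  · intro c hc
    simpa using hc
  · intro c _ c' _ h
    exact sub_left_injective h
  · intro c hc
    refine ⟨c + a, ?_, by simp⟩
    simpa using hc

lemma card_val_sub' {n : ℕ} [NeZero n] {w : ℕ} (hw : w ≤ n) (a : ZMod n) :
    (univ.filter fun c : ZMod n => ZMod.val (a - c) < w).card = w := by
  refine (?_ : _ = _).trans (card_val_lt hw)
  apply Finset.card_bij (fun c _ => a - c)
  · intro c hc
    simpa using hc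
  · intro c _ c' _ h
    exact sub_right_injective h
  · intro c hc
    refine ⟨a - c, ?_, by simp⟩
    simpa using hc

lemma zero_ne_one' {n : ℕ} (hn : 3 ≤ n) : (0 : ZMod n) ≠ 1 := by
  have : Fact (1 < n) := ⟨by omega⟩
  exact zero_ne_one

open Classical in
lemma card_diff {n : ℕ} [NeZero n] (hn : 3 ≤ n) (a : ZMod n) :
    (univ.filter fun c : ZMod n => diff01 a c).card = if a = 0 ∨ a = 1 then 1 else 0 := by
  have h01 := zero_ne_one' hn
  by_cases h0 : a = 0
  · subst h0
    rw [if_pos (Or.inl rfl)]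
    have : (univ.filter fun c : ZMod n => diff01 0 c) = {1} := by
      ext c
      simp only [mem_filter, mem_univ, true_and, mem_singleton, diff01, h01, false_and, or_false]
    rw [this, card_singleton]
  · by_cases h1 : a = 1
    · subst h1
      rw [if_pos (Or.inr rfl)]
      have : (univ.filter fun c : ZMod n => diff01 1 c) = {0} := by
        ext c
        simp only [mem_filter, mem_univ, true_and, mem_singleton, diff01, h01.symm, false_and,
          false_or]
      rw [this, card_singleton]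
    · rw [if_neg (by tauto)]
      rw [card_eq_zero, filter_eq_empty_iff]
      intro c _ h
      rcases h with h | h
      · exact h0 h.1
      · exact h1 h.1

open Classical in
lemma card_same {n : ℕ} [NeZero n] (hn : 3 ≤ n) (a : ZMod n) :
    (univ.filter fun c : ZMod n => same01 a c).card = if a = 0 ∨ a = 1 then 1 else 0 := by
  have h01 := zero_ne_one' hn
  by_cases h0 : a = 0
  · subst h0
    rw [if_pos (Or.inl rfl)]
    have : (univ.filter fun c : ZMod n => same01 0 c) = {0} := by
      ext c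
      simp only [mem_filter, mem_univ, true_and, mem_singleton, same01, h01, false_and, or_false]
    rw [this, card_singleton]
  · by_cases h1 : a = 1
    · subst h1
      rw [if_pos (Or.inr rfl)]
      have : (univ.filter fun c : ZMod n => same01 1 c) = {1} := by
        ext c
        simp only [mem_filter, mem_univ, true_and, mem_singleton, same01, h01.symm, false_and,
          false_or]
      rw [this, card_singleton]
    · rw [if_neg (by tauto)]
      rw [card_eq_zero, filter_eq_empty_iff]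
      intro c _ h
      rcases h with h | h
      · exact h0 h.1
      · exact h1 h.1

/-! ## Sums over gadget vertices -/

lemma sum_Hx (P : Par) (f : Hx P → ℝ) : ∑ y, f y = ∑ g : Bool, ∑ j : Fin (P.m g + 1),
    ∑ a : ZMod P.M0, ∑ b : Fin (4 ^ (j : ℕ)), f ⟨g, j, (a, b)⟩ := by
  rw [Fintype.sum_sigma]
  apply sum_congr rfl
  intro g _
  rw [Fintype.sum_sigma]
  apply sum_congr rfl
  intro j _
  rw [Fintype.sum_prod_type]

open Classical in
/-- correction at the special root positions -/
noncomputable def zz (P : Par) (j : ℕ) (a : ZMod P.M0) : ℝ := if j = 0 ∧ (a = 0 ∨ a = 1) then 1 else 0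

open Classical in
lemma same_level (P : Par) (g : Bool) (j : Fin (P.m g + 1)) (a : ZMod P.M0)
    (b : Fin (4 ^ (j : ℕ))) :
    (∑ a' : ZMod P.M0, ∑ b' : Fin (4 ^ (j : ℕ)),
      if adjG P ⟨g, j, (a, b)⟩ ⟨g, j, (a', b')⟩ then (1 : ℝ) else 0) =
      P.M0 * 4 ^ (j : ℕ) - 1 - zz P j a := by
  have hM := P.hM0
  have h01 := zero_ne_one' hM
  have h1 : ∀ (a' : ZMod P.M0) (b' : Fin (4 ^ (j : ℕ))),
      (if adjG P ⟨g, j, (a, b)⟩ ⟨g, j, (a', b')⟩ then (1 : ℝ) else 0) =
      1 - (if a' = a then (if b' = b then 1 else 0) else 0) -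
        (if (j : ℕ) = 0 ∧ diff01 a a' then 1 else 0) := by
    intro a' b'
    have hiff : adjG P ⟨g, j, (a, b)⟩ ⟨g, j, (a', b')⟩ ↔
        (¬ (a' = a ∧ b' = b) ∧ ¬ ((j : ℕ) = 0 ∧ diff01 a a')) := by
      constructor
      · rintro ⟨-, ⟨-, h2, h3⟩ | ⟨h, -⟩ | ⟨h, -⟩⟩
        · refine ⟨?_, h3⟩
          rintro ⟨rfl, rfl⟩
          exact h2 ⟨rfl, rfl⟩
        · simp only [lv] at h
          omega
        · simp only [lv] at h
          omega
      · rintro ⟨h2, h3⟩
        refine ⟨rfl, Or.inl ⟨rfl, ?_, h3⟩⟩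
        rintro ⟨h4, h5⟩
        exact h2 ⟨h4.symm, Fin.ext h5.symm⟩
    by_cases hA : a' = a ∧ b' = b
    · have hB : ¬ ((j : ℕ) = 0 ∧ diff01 a a') := by
        rintro ⟨-, h⟩
        rw [hA.1] at h
        rcases h with ⟨h2, h3⟩ | ⟨h2, h3⟩
        · exact h01 (h2.symm.trans h3)
        · exact h01 (h3.symm.trans h2)
      rw [if_neg (fun h => (hiff.mp h).1 hA), if_pos hA.1, if_pos hA.2, if_neg hB]
      norm_num
    · by_cases hB : (j : ℕ) = 0 ∧ diff01 a a'
      · rw [if_neg (fun h => (hiff.mp h).2 hB), if_pos hB]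
        have : (if a' = a then (if b' = b then (1:ℝ) else 0) else 0) = 0 := by
          by_cases h : a' = a
          · rw [if_pos h, if_neg (fun h' => hA ⟨h, h'⟩)]
          · rw [if_neg h]
        rw [this]
        norm_num
      · rw [if_pos (hiff.mpr ⟨hA, hB⟩), if_neg hB]
        have : (if a' = a then (if b' = b then (1:ℝ) else 0) else 0) = 0 := by
          by_cases h : a' = a
          · rw [if_pos h, if_neg (fun h' => hA ⟨h, h'⟩)]
          · rw [if_neg h]
        rw [this]
        norm_num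
  simp_rw [h1, sum_sub_distrib]
  have e1 : ∑ _a' : ZMod P.M0, ∑ _b' : Fin (4 ^ (j : ℕ)), (1 : ℝ) = P.M0 * 4 ^ (j : ℕ) := by
    simp [ZMod.card]
  have e2 : ∑ a' : ZMod P.M0, ∑ b' : Fin (4 ^ (j : ℕ)),
      (if a' = a then (if b' = b then (1 : ℝ) else 0) else 0) = 1 := by
    rw [sum_eq_single a]
    · simp
    · intro a' _ h
      simp [h]
    · intro h
      exact absurd (mem_univ a) h
  have e3 : ∑ a' : ZMod P.M0, ∑ _b' : Fin (4 ^ (j : ℕ)),
      (if (j : ℕ) = 0 ∧ diff01 a a' then (1 : ℝ) else 0) = zz P j a := by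
    unfold zz
    by_cases hj : (j : ℕ) = 0
    · simp only [hj, true_and, sum_const, card_univ, Fintype.card_fin, pow_zero, one_smul]
      rw [← Finset.sum_filter, sum_const, nsmul_eq_mul, mul_one]
      have := card_diff hM a
      rw [this]
      split_ifs <;> simp
    · simp [hj]
  rw [e1, e2, e3]

open Classical in
lemma up_level (P : Par) (g : Bool) (j j' : Fin (P.m g + 1)) (hj : (j' : ℕ) = j + 1)
    (a : ZMod P.M0) (b : Fin (4 ^ (j : ℕ))) :
    (∑ a' : ZMod P.M0, ∑ b' : Fin (4 ^ (j' : ℕ)),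
      if adjG P ⟨g, j, (a, b)⟩ ⟨g, j', (a', b')⟩ then (1 : ℝ) else 0) =
      P.w g j * 4 ^ ((j : ℕ) + 1) := by
  have h1 : ∀ (a' : ZMod P.M0) (b' : Fin (4 ^ (j' : ℕ))),
      (if adjG P ⟨g, j, (a, b)⟩ ⟨g, j', (a', b')⟩ then (1 : ℝ) else 0) =
      if ZMod.val (a' - a) < P.w g j then 1 else 0 := by
    intro a' b'
    have hiff : adjG P ⟨g, j, (a, b)⟩ ⟨g, j', (a', b')⟩ ↔ ZMod.val (a' - a) < P.w g j := by
      constructor
      · rintro ⟨-, ⟨h, -⟩ | ⟨-, h⟩ | ⟨h, -⟩⟩
        · simp only [lv] at h; omega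
        · exact h
        · simp only [lv] at h; omega
      · intro h
        exact ⟨rfl, Or.inr (Or.inl ⟨hj, h⟩)⟩
    simp only [hiff]
  simp_rw [h1]
  simp only [sum_const, card_univ, Fintype.card_fin, nsmul_eq_mul]
  rw [← mul_sum, ← Finset.sum_filter, sum_const, nsmul_eq_mul, mul_one,
    card_val_sub (P.hw2 g j) a, hj]
  push_cast
  ring

open Classical in
lemma down_level (P : Par) (g : Bool) (j j' : Fin (P.m g + 1)) (hj : (j : ℕ) = j' + 1)
    (a : ZMod P.M0) (b : Fin (4 ^ (j : ℕ))) :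
    (∑ a' : ZMod P.M0, ∑ b' : Fin (4 ^ (j' : ℕ)),
      if adjG P ⟨g, j, (a, b)⟩ ⟨g, j', (a', b')⟩ then (1 : ℝ) else 0) =
      P.w g j' * 4 ^ (j' : ℕ) := by
  have h1 : ∀ (a' : ZMod P.M0) (b' : Fin (4 ^ (j' : ℕ))),
      (if adjG P ⟨g, j, (a, b)⟩ ⟨g, j', (a', b')⟩ then (1 : ℝ) else 0) =
      if ZMod.val (a - a') < P.w g j' then 1 else 0 := by
    intro a' b'
    have hiff : adjG P ⟨g, j, (a, b)⟩ ⟨g, j', (a', b')⟩ ↔ ZMod.val (a - a') < P.w g j' := by
      constructor
      · rintro ⟨-, ⟨h, -⟩ | ⟨h, -⟩ | ⟨-, h⟩⟩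
        · simp only [lv] at h; omega
        · simp only [lv] at h; omega
        · exact h
      · intro h
        exact ⟨rfl, Or.inr (Or.inr ⟨hj, h⟩)⟩
    simp only [hiff]
  simp_rw [h1]
  simp only [sum_const, card_univ, Fintype.card_fin, nsmul_eq_mul]
  rw [← mul_sum, ← Finset.sum_filter, sum_const, nsmul_eq_mul, mul_one,
    card_val_sub' (P.hw2 g j') a]
  push_cast
  ring

open Classical in
/-- the master formula -/
lemma sum_adjG (P : Par) (x : Hx P) (φ : ℕ → ℝ) :
    (∑ y : Hx P, if adjG P x y then φ (lv P y) else 0) =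
      (P.M0 * 4 ^ lv P x - 1 - zz P (lv P x) (ce P x)) * φ (lv P x) +
      (if lv P x < P.m (gd P x) then P.w (gd P x) (lv P x) * 4 ^ (lv P x + 1) * φ (lv P x + 1)
        else 0) +
      (if 0 < lv P x then P.w (gd P x) (lv P x - 1) * 4 ^ (lv P x - 1) * φ (lv P x - 1) else 0) := by
  obtain ⟨g, j, a, b⟩ := x
  rw [sum_Hx, sum_eq_single g]
  · have h1 : ∀ j' : Fin (P.m g + 1), (∑ a' : ZMod P.M0, ∑ b' : Fin (4 ^ (j' : ℕ)),
        if adjG P ⟨g, j, (a, b)⟩ ⟨g, j', (a', b')⟩ then φ (lv P ⟨g, j', (a', b')⟩) else 0) =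
        (fun k : ℕ => (if k = j then (P.M0 * 4 ^ (j : ℕ) - 1 - zz P j a) * φ j else 0) +
          (if k = j + 1 then P.w g j * 4 ^ ((j : ℕ) + 1) * φ (j + 1) else 0) +
          (if (j : ℕ) = k + 1 then P.w g k * 4 ^ k * φ k else 0)) (j' : ℕ) := by
      intro j'
      have h2 : ∀ (a' : ZMod P.M0) (b' : Fin (4 ^ (j' : ℕ))),
          (if adjG P ⟨g, j, (a, b)⟩ ⟨g, j', (a', b')⟩ then φ (lv P ⟨g, j', (a', b')⟩) else 0) =
          (if adjG P ⟨g, j, (a, b)⟩ ⟨g, j', (a', b')⟩ then (1 : ℝ) else 0) * φ j' := by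
        intro a' b'
        rw [ite_mul, one_mul, zero_mul]
        rfl
      simp_rw [h2, ← sum_mul]
      by_cases e1 : (j' : ℕ) = j
      · have : j' = j := Fin.ext e1
        subst this
        rw [same_level]
        simp
      · by_cases e2 : (j' : ℕ) = j + 1
        · rw [up_level P g j j' e2 a b]
          have e3 : ¬ (j : ℕ) = j' + 1 := by omega
          simp only [if_neg e1, if_pos e2, if_neg e3, zero_add, add_zero]
          rw [e2]
        · by_cases e3 : (j : ℕ) = j' + 1
          · rw [down_level P g j j' e3 a b]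
            simp only [if_neg e1, if_neg e2, if_pos e3, zero_add]
          · simp only [if_neg e1, if_neg e2, if_neg e3, zero_add]
            have : ∀ (a' : ZMod P.M0) (b' : Fin (4 ^ (j' : ℕ))),
                (if adjG P ⟨g, j, (a, b)⟩ ⟨g, j', (a', b')⟩ then (1 : ℝ) else 0) = 0 := by
              intro a' b'
              rw [if_neg]
              rintro ⟨-, ⟨h, -⟩ | ⟨h, -⟩ | ⟨h, -⟩⟩
              · simp only [lv] at h; omega
              · simp only [lv] at h; omega
              · simp only [lv] at h; omega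
            simp_rw [this]
            simp
    rw [sum_congr rfl (fun j' _ => h1 j'), Fin.sum_univ_eq_sum_range
      (fun k : ℕ => (if k = j then (P.M0 * 4 ^ (j : ℕ) - 1 - zz P j a) * φ j else 0) +
          (if k = j + 1 then P.w g j * 4 ^ ((j : ℕ) + 1) * φ (j + 1) else 0) +
          (if (j : ℕ) = k + 1 then P.w g k * 4 ^ k * φ k else 0)) (P.m g + 1),
      sum_add_distrib, sum_add_distrib]
    congr 1
    · congr 1
      · rw [sum_ite_eq' (range (P.m g + 1)) (j : ℕ), if_pos (mem_range.mpr j.2)]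
        rfl
      · rw [sum_ite_eq' (range (P.m g + 1)) ((j : ℕ) + 1)]
        simp only [mem_range, add_lt_add_iff_right]
        rfl
    · by_cases hj : 0 < (j : ℕ)
      · rw [sum_eq_single ((j : ℕ) - 1)]
        · rw [if_pos (by omega)]
          rw [if_pos (show 0 < lv P ⟨g, j, (a, b)⟩ from hj)]
          rfl
        · intro k _ hk
          rw [if_neg (by omega)]
        · intro h
          exfalso
          apply h
          rw [mem_range]
          have := j.2
          omega
      · rw [if_neg (show ¬ 0 < lv P ⟨g, j, (a, b)⟩ from hj)]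
        apply sum_eq_zero
        intro k _
        rw [if_neg (by omega)]
  · intro g' _ hg'
    apply sum_eq_zero
    intro j' _
    apply sum_eq_zero
    intro a' _
    apply sum_eq_zero
    intro b' _
    rw [if_neg]
    rintro ⟨h, -⟩
    exact hg' h.symm
  · intro h
    exact absurd (mem_univ g) h

open Classical in
lemma sum_cross (P : Par) (x : Hx P) :
    (∑ y : Hx P, if crossR P x y then (1 : ℝ) else 0) = zz P (lv P x) (ce P x) := by
  obtain ⟨g, j, a, b⟩ := x
  have hM := P.hM0
  rw [sum_Hx, sum_eq_single (!g)]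
  · rw [sum_eq_single (0 : Fin (P.m (!g) + 1))]
    · have h1 : ∀ (a' : ZMod P.M0) (b' : Fin (4 ^ ((0 : Fin (P.m (!g) + 1)) : ℕ))),
          (if crossR P ⟨g, j, (a, b)⟩ ⟨!g, 0, (a', b')⟩ then (1 : ℝ) else 0) =
          if (j : ℕ) = 0 ∧ same01 a a' then 1 else 0 := by
        intro a' b'
        have hiff : crossR P ⟨g, j, (a, b)⟩ ⟨!g, 0, (a', b')⟩ ↔ ((j : ℕ) = 0 ∧ same01 a a') := by
          constructor
          · rintro ⟨-, h1, -, h2⟩
            exact ⟨h1, h2⟩
          · rintro ⟨h1, h2⟩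
            refine ⟨?_, h1, ?_, h2⟩
            · simp [gd]
            · simp [lv]
        simp only [hiff]
      simp_rw [h1]
      unfold zz
      by_cases hj : (j : ℕ) = 0
      · have e0 : (4 ^ (((0 : Fin (P.m (!g) + 1)) : ℕ))) = 1 := by simp
        have h2 : ∀ a' : ZMod P.M0, (∑ _b' : Fin (4 ^ ((0 : Fin (P.m (!g) + 1)) : ℕ)),
            if (j : ℕ) = 0 ∧ same01 a a' then (1 : ℝ) else 0) =
            if same01 a a' then (1 : ℝ) else 0 := by
          intro a'
          rw [sum_const, card_univ, Fintype.card_fin, e0, one_smul]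
          simp only [hj, true_and]
        rw [sum_congr rfl (fun a' _ => h2 a'), ← Finset.sum_filter, sum_const, nsmul_eq_mul,
          mul_one, card_same hM a]
        have h3 : lv P ⟨g, j, (a, b)⟩ = 0 := hj
        rw [h3]
        change _ = if (0 = 0 ∧ (a = 0 ∨ a = 1)) then (1:ℝ) else 0
        split_ifs <;> simp_all
      · have : ¬ lv P ⟨g, j, (a, b)⟩ = 0 := hj
        simp [hj, this]
    · intro j' _ hj'
      apply sum_eq_zero
      intro a' _
      apply sum_eq_zero
      intro b' _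
      rw [if_neg]
      rintro ⟨-, -, h, -⟩
      exact hj' (Fin.ext h)
    · intro h
      exact absurd (mem_univ _) h
  · intro g' _ hg'
    apply sum_eq_zero
    intro j' _
    apply sum_eq_zero
    intro a' _
    apply sum_eq_zero
    intro b' _
    rw [if_neg]
    rintro ⟨h, -⟩
    apply hg'
    revert h
    simp only [gd]
    cases g <;> cases g' <;> simp
  · intro h
    exact absurd (mem_univ _) h

lemma card_Hx_top (P : Par) : (∑ y : Hx P, if lv P y = P.m (gd P y) then (1 : ℝ) else 0) =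
    ∑ g : Bool, (P.M0 : ℝ) * 4 ^ P.m g := by
  rw [sum_Hx]
  apply sum_congr rfl
  intro g _
  have h1 : ∀ j : Fin (P.m g + 1), (∑ a : ZMod P.M0, ∑ b : Fin (4 ^ (j : ℕ)),
      if lv P ⟨g, j, (a, b)⟩ = P.m (gd P ⟨g, j, (a, b)⟩) then (1 : ℝ) else 0) =
      (fun k : ℕ => if k = P.m g then (P.M0 : ℝ) * 4 ^ k else 0) (j : ℕ) := by
    intro j
    have : ∀ (a : ZMod P.M0) (b : Fin (4 ^ (j : ℕ))),
        (if lv P ⟨g, j, (a, b)⟩ = P.m (gd P ⟨g, j, (a, b)⟩) then (1 : ℝ) else 0) =
        if (j : ℕ) = P.m g then 1 else 0 := fun _ _ => rfl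
    simp_rw [this]
    by_cases h : (j : ℕ) = P.m g
    · simp [h, ZMod.card]
    · simp [h]
  rw [sum_congr rfl (fun j _ => h1 j), Fin.sum_univ_eq_sum_range
    (fun k : ℕ => if k = P.m g then (P.M0 : ℝ) * 4 ^ k else 0), sum_ite_eq']
  simp

lemma dL_cast (P : Par) (g : Bool) (j : ℕ) : (dL P g j : ℝ) =
    P.M0 * 4 ^ j - 1 + (if j < P.m g then (P.w g j * 4 ^ (j + 1) : ℝ) else P.Mn) +
    (if 0 < j then (P.w g (j - 1) * 4 ^ (j - 1) : ℝ) else 0) := by
  have hM := P.hM0
  have h1 : 1 ≤ P.M0 * 4 ^ j := Nat.one_le_iff_ne_zero.mpr (by positivity)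
  unfold dL
  rw [Nat.cast_add, Nat.cast_add, Nat.cast_sub h1]
  push_cast
  rfl

lemma dM_cast (P : Par) : (dM P : ℝ) = P.Mn - 1 + ∑ g : Bool, (P.M0 : ℝ) * 4 ^ P.m g := by
  have hM := P.hMn
  unfold dM
  rw [Nat.cast_add, Nat.cast_sub (by omega)]
  push_cast
  rfl

open Classical in
lemma sum_adjR (P : Par) (x : Vx P) : (∑ y : Vx P, if adjR P x y then (1 : ℝ) else 0) = dg P x := by
  rw [Fintype.sum_sum_type]
  rcases x with x | i
  · have h1 : ∀ y : Hx P, (if adjR P (Sum.inl x) (Sum.inl y) then (1 : ℝ) else 0) =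
        (if adjG P x y then 1 else 0) + (if crossR P x y then 1 else 0) := by
      intro y
      by_cases h : adjG P x y
      · have h' : ¬ crossR P x y := fun hc => hc.1 h.1
        rw [if_pos h, if_neg h', if_pos (show adjR P (Sum.inl x) (Sum.inl y) from Or.inl h), add_zero]
      · by_cases h' : crossR P x y
        · rw [if_neg h, if_pos h', if_pos (show adjR P (Sum.inl x) (Sum.inl y) from Or.inr h'), zero_add]
        · rw [if_neg h, if_neg h', if_neg (show ¬ adjR P (Sum.inl x) (Sum.inl y) from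
            by rintro (h2 | h2) <;> contradiction), add_zero]
    have h2 : ∀ i : Fin P.Mn, (if adjR P (Sum.inl x) (Sum.inr i) then (1 : ℝ) else 0) =
        if lv P x = P.m (gd P x) then 1 else 0 := fun _ => if_congr Iff.rfl rfl rfl
    simp_rw [h1, h2, sum_add_distrib]
    have h3 := sum_adjG P x (fun _ => 1)
    rw [h3, sum_cross, sum_const, card_univ, Fintype.card_fin]
    change _ = ((dL P (gd P x) (lv P x) : ℕ) : ℝ)
    rw [dL_cast]
    have hlv : lv P x ≤ P.m (gd P x) := Nat.lt_succ_iff.mp x.2.1.2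
    by_cases h : lv P x = P.m (gd P x)
    · have h4 : ¬ lv P x < P.m (gd P x) := by omega
      simp only [if_pos h, if_neg h4, mul_one, nsmul_eq_mul]
      ring
    · have h4 : lv P x < P.m (gd P x) := by omega
      simp only [if_neg h, if_pos h4, mul_one, nsmul_eq_mul]
      ring
  · have h1 : ∀ y : Hx P, (if adjR P (Sum.inr i) (Sum.inl y) then (1 : ℝ) else 0) =
        if lv P y = P.m (gd P y) then 1 else 0 := fun _ => if_congr Iff.rfl rfl rfl
    have h2 : ∀ i' : Fin P.Mn, (if adjR P (Sum.inr i) (Sum.inr i') then (1 : ℝ) else 0) =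
        1 - if i = i' then 1 else 0 := by
      intro i'
      by_cases h : i = i'
      · rw [if_neg (fun h' => h' h), if_pos h]; norm_num
      · rw [if_pos (show adjR P (Sum.inr i) (Sum.inr i') from h), if_neg h]; norm_num
    simp_rw [h1, h2, sum_sub_distrib]
    rw [card_Hx_top]
    change _ = ((dM P : ℕ) : ℝ)
    rw [dM_cast]
    simp only [sum_const, card_univ, Fintype.card_fin, nsmul_eq_mul, mul_one, sum_ite_eq, mem_univ,
      if_true]
    ring

open Classical in
theorem deg : DEG_stmt := by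
  intro P x
  have h : ((gr P).degree x : ℝ) = dg P x := by
    rw [← sum_adjR, Finset.sum_boole, ← SimpleGraph.card_neighborFinset_eq_degree]
    congr 2
    ext y
    simp only [SimpleGraph.mem_neighborFinset, mem_filter, mem_univ, true_and]
    exact adj P x y
  exact_mod_cast h

end H72C.Helper22
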