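import Pool.Agent.Helper22_Cut.Deg

set_option autoImplicit false

open Finset Pool.Agent.Helper91_CW

namespace H72C.Helper22

/-- edge weight between levels -/
noncomputable def cc (P : Par) (g : Bool) (j j' : ℕ) : ℝ :=
  (1 / (2 * nt P)) * (1 / (dL P g j : ℝ) + 1 / (dL P g j' : ℝ))

lemma cc_comm (P : Par) (g : Bool) (j j' : ℕ) : cc P g j j' = cc P g j' j := by
  unfold cc; ring

lemma lv_le (P : Par) (x : Hx P) : lv P x ≤ P.m (gd P x) := Nat.lt_succ_iff.mp x.2.1.2

lemma UP_lt (P : Par) (g : Bool) (j : ℕ) (hj : j < P.m g) :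
    UP P g j = P.w g j * 4 ^ (j + 1) * cc P g j (j + 1) := by
  unfold UP cc
  rw [if_pos hj]

lemma sum_wH (P : Par) (x : Hx P) (ψ : ℕ → ℝ) :
    (∑ y, wH P x y * ψ (lv P y)) =
      (P.M0 * 4 ^ lv P x - 1 - zz P (lv P x) (ce P x)) *
        (cc P (gd P x) (lv P x) (lv P x) * ψ (lv P x)) +
      (if lv P x < P.m (gd P x) then P.w (gd P x) (lv P x) * 4 ^ (lv P x + 1) *
        (cc P (gd P x) (lv P x) (lv P x + 1) * ψ (lv P x + 1)) else 0) +
      (if 0 < lv P x then P.w (gd P x) (lv P x - 1) * 4 ^ (lv P x - 1) *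
        (cc P (gd P x) (lv P x) (lv P x - 1) * ψ (lv P x - 1)) else 0) := by
  classical
  rw [← sum_adjG P x (fun j' => cc P (gd P x) (lv P x) j' * ψ j')]
  apply sum_congr rfl
  intro y _
  unfold wH
  by_cases h : adjG P x y
  · rw [if_pos h, if_pos h, ← h.1]
    rfl
  · rw [if_neg h, if_neg h, zero_mul]

lemma one_step (P : Par) (ψ : Bool → ℕ → ℝ) (x : Hx P) :
    Kw (Fintype.card (Fin P.Mn)) (wH P) (qH P) (fun y => ψ (gd P y) (lv P y)) x =
      BD (UP P (gd P x)) (P.m (gd P x)) 0 (ψ (gd P x)) (lv P x) := by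
  have hlv := lv_le P x
  have e1 : Kw (Fintype.card (Fin P.Mn)) (wH P) (qH P) (fun y => ψ (gd P y) (lv P y)) x =
      ψ (gd P x) (lv P x) - P.Mn * qH P x * ψ (gd P x) (lv P x) +
        ∑ y, wH P x y * (fun j' => ψ (gd P x) j' - ψ (gd P x) (lv P x)) (lv P y) := by
    have e2 : ∑ y, wH P x y * (fun j' => ψ (gd P x) j' - ψ (gd P x) (lv P x)) (lv P y) =
        (∑ y, wH P x y * ψ (gd P y) (lv P y)) - (∑ y, wH P x y) * ψ (gd P x) (lv P x) := by
      rw [sum_mul, ← sum_sub_distrib]
      apply sum_congr rfl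
      intro y _
      unfold wH
      by_cases h : adjG P x y
      · rw [if_pos h]
        have := h.1
        rw [← this]
        ring
      · rw [if_neg h]; ring
    rw [e2]
    unfold Kw
    rw [Fintype.card_fin]
    ring
  rw [e1, sum_wH P x (fun j' => ψ (gd P x) j' - ψ (gd P x) (lv P x))]
  unfold BD
  rw [if_pos (show 0 ≤ lv P x ∧ lv P x ≤ P.m (gd P x) from ⟨Nat.zero_le _, hlv⟩)]
  generalize hg : gd P x = g at *
  generalize hj : lv P x = j at *
  simp only [sub_self, mul_zero, zero_add]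
  have hdown : (if 0 < j then (P.w g (j - 1) * 4 ^ (j - 1) * (cc P g j (j - 1) * (ψ g (j - 1) - ψ g j)) : ℝ)
      else 0) = (if 0 < j then UP P g (j - 1) / 4 * ψ g (j - 1) else 0) -
        (if j = 0 then 0 else UP P g (j - 1) / 4) * ψ g j := by
    by_cases h0 : j = 0
    · subst h0
      simp
    · rw [if_pos (by omega), if_pos (by omega), if_neg h0, UP_lt P g (j - 1) (by omega)]
      have : j - 1 + 1 = j := by omega
      rw [this, cc_comm P g (j - 1) j]
      have h4 : (4 : ℝ) ^ j = 4 * 4 ^ (j - 1) := by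
        rw [← pow_succ', this]
      rw [h4]
      ring
  rw [hdown]
  by_cases hm : j < P.m g
  · simp only [if_pos hm]
    have hq : qH P x = 0 := by
      unfold qH
      rw [if_neg]
      rw [hj, hg]
      omega
    rw [hq, UP_lt P g j hm]
    ring
  · simp only [if_neg hm]
    have hjm : j = P.m g := by omega
    have hq : P.Mn * qH P x = UP P g j := by
      unfold qH UP
      rw [if_neg hm, if_pos (by rw [hj, hg]; exact hjm), hj, hg, hjm]
    rw [hq]
    ring

theorem lev : LEV_stmt := by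
  intro P φ t
  suffices h : (Kw (Fintype.card (Fin P.Mn)) (wH P) (qH P))^[t] (fun y => φ (gd P y) (lv P y)) =
      fun x => bIt (UP P (gd P x)) (P.m (gd P x)) 0 (φ (gd P x)) t (lv P x) from
    fun x => congrFun h x
  induction t with
  | zero =>
    funext x
    unfold bIt
    simp only [Function.iterate_zero, id_eq]
    rw [if_pos ⟨Nat.zero_le _, lv_le P x⟩]
  | succ t ih =>
    funext x
    rw [Function.iterate_succ_apply', ih]
    rw [one_step P (fun g j => bIt (UP P g) (P.m g) 0 (φ g) t j) x]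
    unfold bIt
    rw [Function.iterate_succ_apply']

end H72C.Helper22
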