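import Pool.Agent.Helper22_Cut.Lev

set_option autoImplicit false

open Finset Equiv Pool.Agent.Helper91_CW

namespace H72C.Helper22

lemma dL_ge (P : Par) (g : Bool) (j : ℕ) : (2 : ℝ) ≤ dL P g j := by
  have h : 2 ≤ dL P g j := by
    have hM := P.hM0
    have h4 : 1 ≤ 4 ^ j := Nat.one_le_pow _ _ (by norm_num)
    have h5 : 3 ≤ P.M0 * 4 ^ j := by nlinarith
    unfold dL
    omega
  exact_mod_cast h

lemma dL0_ge (P : Par) (g : Bool) : (6 : ℝ) ≤ dL P g 0 := by
  have h : 6 ≤ dL P g 0 := by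
    have hM := P.hM0
    have hw := P.hw1 g 0
    have hm := P.hm g
    unfold dL
    rw [if_pos (show 0 < P.m g by omega)]
    simp only [pow_zero, zero_add, pow_one, mul_one]
    omega
  exact_mod_cast h

lemma dM_ge (P : Par) : (P.Mn : ℝ) ≤ dM P := by
  have h : P.Mn ≤ dM P := by
    have hM := P.hM0
    unfold dM
    have : 1 ≤ ∑ g : Bool, P.M0 * 4 ^ P.m g := by
      rw [Fintype.sum_bool]
      have h5 : 0 < P.M0 * 4 ^ P.m true := by positivity
      omega
    omega
  exact_mod_cast h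

lemma Mn_ge (P : Par) : (2 : ℝ) ≤ P.Mn := by
  exact_mod_cast P.hMn

lemma nn_eq (P : Par) : nn P = (Fintype.card (Hx P) : ℝ) + P.Mn := by
  unfold nn
  rw [Fintype.card_sum, Fintype.card_fin]
  push_cast
  ring

lemma nn_ge (P : Par) : (2 : ℝ) ≤ nn P := by
  rw [nn_eq]
  have := Mn_ge P
  have h : (0 : ℝ) ≤ (Fintype.card (Hx P) : ℝ) := by positivity
  linarith

lemma np1 (P : Par) : 0 < p1 P ∧ nn P * p1 P ≤ 1 / 6 := by
  have hn := nn_ge P
  have h1 := dL0_ge P false
  have h2 := dL0_ge P true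
  have e1 : 1 / (dL P false 0 : ℝ) ≤ 1 / 6 := one_div_le_one_div_of_le (by norm_num) h1
  have e2 : 1 / (dL P true 0 : ℝ) ≤ 1 / 6 := one_div_le_one_div_of_le (by norm_num) h2
  have e3 : 0 < 1 / (dL P false 0 : ℝ) := by positivity
  have e4 : 0 < 1 / (dL P true 0 : ℝ) := by positivity
  unfold p1
  constructor
  · positivity
  · have : nn P * (1 / (2 * nn P) * (1 / (dL P false 0 : ℝ) + 1 / (dL P true 0 : ℝ))) =
        (1 / 2) * (1 / (dL P false 0 : ℝ) + 1 / (dL P true 0 : ℝ)) := by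
      field_simp
    rw [this]
    linarith

lemma nt_bound (P : Par) : nn P + 1 ≤ 2 * nt P ∧ 0 < nt P := by
  have hn := nn_ge P
  obtain ⟨_, h2⟩ := np1 P
  have : nt P = nn P - 2 * (nn P * p1 P) := by unfold nt; ring
  constructor <;> linarith

lemma dg_ge (P : Par) (x : Vx P) : (1 : ℝ) ≤ dg P x := by
  rcases x with x | i
  · have := dL_ge P (gd P x) (lv P x)
    change (1 : ℝ) ≤ ((dL P (gd P x) (lv P x) : ℕ) : ℝ)
    linarith
  · have := dM_ge P
    have h2 := Mn_ge P
    change (1 : ℝ) ≤ ((dM P : ℕ) : ℝ)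
    linarith

open Classical in
lemma wX_le (P : Par) (x y : Vx P) : wX P x y ≤ (if adjR P x y then (1 : ℝ) else 0) *
    ((1 / (2 * nt P)) * (1 / (dg P x : ℝ) + 1 / (dg P y : ℝ))) := by
  have hnt := (nt_bound P).2
  have hpos : ∀ x y : Vx P, 0 ≤ (1 / (2 * nt P)) * (1 / (dg P x : ℝ) + 1 / (dg P y : ℝ)) := by
    intro x y
    positivity
  have hnn : ∀ x y : Vx P, 0 ≤ (if adjR P x y then (1 : ℝ) else 0) *
      ((1 / (2 * nt P)) * (1 / (dg P x : ℝ) + 1 / (dg P y : ℝ))) := by
    intro x y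
    apply mul_nonneg _ (hpos x y)
    split_ifs <;> norm_num
  rcases x with x | i <;> rcases y with y | i'
  · change wH P x y ≤ _
    unfold wH
    by_cases h : adjG P x y
    · rw [if_pos h, if_pos (show adjR P (Sum.inl x) (Sum.inl y) from Or.inl h), one_mul]
      exact le_refl _
    · rw [if_neg h]
      exact hnn _ _
  · change qH P x ≤ _
    unfold qH
    by_cases h : lv P x = P.m (gd P x)
    · rw [if_pos h, if_pos (show adjR P (Sum.inl x) (Sum.inr i') from h), one_mul]
      exact le_refl _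
    · rw [if_neg h]
      exact hnn _ _
  · change qH P y ≤ _
    unfold qH
    by_cases h : lv P y = P.m (gd P y)
    · rw [if_pos h, if_pos (show adjR P (Sum.inr i) (Sum.inl y) from h), one_mul]
      apply le_of_eq
      rw [add_comm]
      rfl
    · rw [if_neg h]
      exact hnn _ _
  · change (if i = i' then 0 else rH P) ≤ _
    by_cases h : i = i'
    · rw [if_pos h]
      exact hnn _ _
    · rw [if_neg h, if_pos (show adjR P (Sum.inr i) (Sum.inr i') from h), one_mul]
      unfold rH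
      apply le_of_eq
      change _ = (1 / (2 * nt P)) * (1 / (dM P : ℝ) + 1 / (dM P : ℝ))
      ring

lemma wH_nonneg (P : Par) (x y : Hx P) : 0 ≤ wH P x y := by
  have hnt := (nt_bound P).2
  unfold wH
  split_ifs
  · positivity
  · exact le_refl _

lemma wH_comm (P : Par) (x y : Hx P) : wH P x y = wH P y x := by
  unfold wH
  by_cases h : adjG P x y
  · rw [if_pos h, if_pos (adjG_symm h)]
    ring
  · rw [if_neg h, if_neg (fun h' => h (adjG_symm h'))]

lemma wH_self (P : Par) (x : Hx P) : wH P x x = 0 := by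
  unfold wH
  rw [if_neg (adjG_irrefl x)]

lemma qH_nonneg (P : Par) (x : Hx P) : 0 ≤ qH P x := by
  have hnt := (nt_bound P).2
  unfold qH
  split_ifs
  · positivity
  · exact le_refl _

lemma rH_nonneg (P : Par) : 0 ≤ rH P := by
  have hnt := (nt_bound P).2
  unfold rH
  positivity

lemma wX_nonneg (P : Par) (x y : Vx P) : 0 ≤ wX P x y := by
  rcases x with x | i <;> rcases y with y | i'
  · exact wH_nonneg P x y
  · exact qH_nonneg P x
  · exact qH_nonneg P y
  · change 0 ≤ (if i = i' then 0 else rH P)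
    split_ifs
    · exact le_refl _
    · exact rH_nonneg P

lemma wX_comm (P : Par) (x y : Vx P) : wX P x y = wX P y x := by
  rcases x with x | i <;> rcases y with y | i'
  · exact wH_comm P x y
  · rfl
  · rfl
  · change (if i = i' then 0 else rH P) = (if i' = i then 0 else rH P)
    by_cases h : i = i'
    · rw [if_pos h, if_pos h.symm]
    · rw [if_neg h, if_neg (Ne.symm h)]

lemma wX_self (P : Par) (x : Vx P) : wX P x x = 0 := by
  rcases x with x | i
  · exact wH_self P x
  · change (if i = i then 0 else rH P) = 0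
    rw [if_pos rfl]

open Classical in
lemma wX_row (P : Par) (x : Vx P) : ∑ y, wX P x y ≤ 1 := by
  obtain ⟨hb, hnt⟩ := nt_bound P
  have h1 : ∑ y, wX P x y ≤ ∑ y, ((1 / (2 * nt P)) * ((if adjR P x y then (1 : ℝ) else 0) *
      (1 / (dg P x : ℝ)) + 1)) := by
    apply sum_le_sum
    intro y _
    refine (wX_le P x y).trans ?_
    rw [mul_left_comm]
    apply mul_le_mul_of_nonneg_left _ (by positivity)
    have hy : 1 / (dg P y : ℝ) ≤ 1 := by
      rw [div_le_one (by linarith [dg_ge P y])]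
      exact dg_ge P y
    have hA : (if adjR P x y then (1 : ℝ) else 0) ≤ 1 := by split_ifs <;> norm_num
    have hA0 : 0 ≤ (if adjR P x y then (1 : ℝ) else 0) := by split_ifs <;> norm_num
    nlinarith
  refine h1.trans ?_
  rw [← mul_sum, sum_add_distrib, ← sum_mul, sum_adjR]
  have h2 : (dg P x : ℝ) * (1 / (dg P x : ℝ)) = 1 := by
    have := dg_ge P x
    field_simp
  rw [h2, sum_const, card_univ, nsmul_eq_mul, mul_one]
  change 1 / (2 * nt P) * (1 + nn P) ≤ 1
  rw [one_div, inv_mul_le_iff₀ (by positivity)]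
  linarith

open Classical in
lemma wX_tot (P : Par) : wtot (wX P) ≤ nn P / (2 * nt P) := by
  obtain ⟨hb, hnt⟩ := nt_bound P
  unfold wtot
  have h1 : ∑ x, ∑ y, wX P x y ≤ ∑ x, ∑ y, (if adjR P x y then (1 : ℝ) else 0) *
    ((1 / (2 * nt P)) * (1 / (dg P x : ℝ) + 1 / (dg P y : ℝ))) :=
    sum_le_sum fun x _ => sum_le_sum fun y _ => wX_le P x y
  have hs : ∀ x y : Vx P, (if adjR P x y then (1 : ℝ) else 0) =
      (if adjR P y x then (1 : ℝ) else 0) := fun x y =>
    if_congr ⟨adjR_symm, adjR_symm⟩ rfl rfl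
  have hd : ∀ x : Vx P, (dg P x : ℝ) * (1 / (dg P x : ℝ)) = 1 := by
    intro x
    have := dg_ge P x
    field_simp
  have h2 : ∑ x : Vx P, ∑ y : Vx P, (if adjR P x y then (1 : ℝ) else 0) *
      ((1 / (2 * nt P)) * (1 / (dg P x : ℝ) + 1 / (dg P y : ℝ))) =
      (1 / (2 * nt P)) * (nn P + nn P) := by
    have e1 : ∑ x : Vx P, ∑ y : Vx P, (if adjR P x y then (1 : ℝ) else 0) *
        (1 / (dg P x : ℝ)) = nn P := by
      simp_rw [← sum_mul, sum_adjR, hd]
      rw [sum_const, card_univ, nsmul_eq_mul, mul_one]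
      rfl
    have e2 : ∑ x : Vx P, ∑ y : Vx P, (if adjR P x y then (1 : ℝ) else 0) *
        (1 / (dg P y : ℝ)) = nn P := by
      rw [sum_comm]
      simp_rw [← sum_mul]
      have : ∀ y : Vx P, (∑ x : Vx P, if adjR P x y then (1 : ℝ) else 0) = dg P y := by
        intro y
        rw [← sum_adjR]
        exact sum_congr rfl fun x _ => hs x y
      simp_rw [this, hd]
      rw [sum_const, card_univ, nsmul_eq_mul, mul_one]
      rfl
    have e3 : ∀ x y : Vx P, (if adjR P x y then (1 : ℝ) else 0) *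
        ((1 / (2 * nt P)) * (1 / (dg P x : ℝ) + 1 / (dg P y : ℝ))) =
        (1 / (2 * nt P)) * ((if adjR P x y then (1 : ℝ) else 0) * (1 / (dg P x : ℝ))) +
        (1 / (2 * nt P)) * ((if adjR P x y then (1 : ℝ) else 0) * (1 / (dg P y : ℝ))) := by
      intro x y; ring
    simp_rw [e3, sum_add_distrib, ← mul_sum]
    rw [e1, e2]
    ring
  rw [h2] at h1
  calc 1 / 2 * ∑ x, ∑ y, wX P x y ≤ 1 / 2 * ((1 / (2 * nt P)) * (nn P + nn P)) := by gcongr
    _ = nn P / (2 * nt P) := by ring

lemma tot_split (P : Par) : totW (Fintype.card (Fin P.Mn)) (wH P) (qH P) (rH P) =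
    wtot (wX P) + rH P * P.Mn / 2 := by
  unfold totW wtot
  rw [Fintype.card_fin]
  have h1 : ∑ x, ∑ y, wX P x y = (∑ x, ∑ y, wH P x y) + P.Mn * ∑ v, qH P v +
      (P.Mn * ∑ v, qH P v) + (P.Mn * (P.Mn * rH P) - P.Mn * rH P) := by
    rw [Fintype.sum_sum_type]
    have a1 : ∀ x : Hx P, ∑ y, wX P (Sum.inl x) y = (∑ y, wH P x y) + P.Mn * qH P x := by
      intro x
      rw [Fintype.sum_sum_type]
      congr 1
      change ∑ _b : Fin P.Mn, qH P x = _
      rw [sum_const, card_univ, Fintype.card_fin, nsmul_eq_mul]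
    have a2 : ∀ i : Fin P.Mn, ∑ y, wX P (Sum.inr i) y = (∑ y, qH P y) + (P.Mn * rH P - rH P) := by
      intro i
      rw [Fintype.sum_sum_type]
      congr 1
      change ∑ b : Fin P.Mn, (if i = b then 0 else rH P) = _
      have : ∀ b : Fin P.Mn, (if i = b then 0 else rH P) = rH P - (if i = b then rH P else 0) := by
        intro b
        split_ifs <;> ring
      simp_rw [this, sum_sub_distrib]
      rw [sum_const, card_univ, Fintype.card_fin, nsmul_eq_mul, sum_ite_eq, if_pos (mem_univ _)]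
    simp_rw [a1, a2, sum_add_distrib]
    rw [← mul_sum, sum_const, sum_const, card_univ, Fintype.card_fin, nsmul_eq_mul, nsmul_eq_mul]
    ring
  rw [h1]
  ring

lemma nu_eq (P : Par) : nu (wX P) = stepW (Fin P.Mn) (wH P) (qH P) (rH P) := by
  unfold nu stepW
  rw [tot_split]
  have h1 : ∑ x, ∑ y, wX P x y • pt (swap x y) =
      (∑ x, ∑ y, wH P x y • pt (swap (Sum.inl x : Vx P) (Sum.inl y))) +
      (∑ v, qH P v • ∑ b : Fin P.Mn, pt (swap (Sum.inl v : Vx P) (Sum.inr b))) +
      (∑ v, qH P v • ∑ b : Fin P.Mn, pt (swap (Sum.inl v : Vx P) (Sum.inr b))) +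
      (rH P • (∑ b : Fin P.Mn, ∑ b' : Fin P.Mn, pt (swap (Sum.inr b : Vx P) (Sum.inr b'))) -
        (rH P * P.Mn) • (1 : Alg (Perm (Vx P)))) := by
    rw [Fintype.sum_sum_type]
    have a1 : ∀ x : Hx P, ∑ y, wX P (Sum.inl x) y • pt (swap (Sum.inl x : Vx P) y) =
        (∑ y, wH P x y • pt (swap (Sum.inl x : Vx P) (Sum.inl y))) +
        qH P x • ∑ b : Fin P.Mn, pt (swap (Sum.inl x : Vx P) (Sum.inr b)) := by
      intro x
      rw [Fintype.sum_sum_type, smul_sum]
      rfl
    have a2 : ∀ i : Fin P.Mn, ∑ y, wX P (Sum.inr i) y • pt (swap (Sum.inr i : Vx P) y) =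
        (∑ y, qH P y • pt (swap (Sum.inl y : Vx P) (Sum.inr i))) +
        (rH P • (∑ b' : Fin P.Mn, pt (swap (Sum.inr i : Vx P) (Sum.inr b'))) -
          rH P • (1 : Alg (Perm (Vx P)))) := by
      intro i
      rw [Fintype.sum_sum_type]
      congr 1
      · apply sum_congr rfl
        intro y _
        rw [swap_comm]
        rfl
      · change ∑ b : Fin P.Mn, (if i = b then 0 else rH P) • pt (swap (Sum.inr i : Vx P) (Sum.inr b)) = _
        have : ∀ b : Fin P.Mn, (if i = b then 0 else rH P) • pt (swap (Sum.inr i : Vx P) (Sum.inr b)) =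
            rH P • pt (swap (Sum.inr i : Vx P) (Sum.inr b)) -
              (if i = b then rH P • (1 : Alg (Perm (Vx P))) else 0) := by
          intro b
          by_cases h : i = b
          · subst h
            rw [if_pos rfl, if_pos rfl, swap_self, zero_smul]
            rw [eq_comm, sub_eq_zero]
            rfl
          · rw [if_neg h, if_neg h, sub_zero]
        simp_rw [this, sum_sub_distrib]
        rw [sum_ite_eq, if_pos (mem_univ _), smul_sum]
    simp_rw [a1, a2, sum_add_distrib, sum_sub_distrib]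
    rw [← smul_sum]
    have a3 : ∑ i : Fin P.Mn, ∑ y, qH P y • pt (swap (Sum.inl y : Vx P) (Sum.inr i)) =
        ∑ v, qH P v • ∑ b : Fin P.Mn, pt (swap (Sum.inl v : Vx P) (Sum.inr b)) := by
      rw [sum_comm]
      simp_rw [smul_sum]
    rw [a3, sum_const, card_univ, Fintype.card_fin]
    have a4 : P.Mn • rH P • (1 : Alg (Perm (Vx P))) = (rH P * P.Mn) • (1 : Alg (Perm (Vx P))) := by
      rw [← Nat.cast_smul_eq_nsmul ℝ, smul_smul, mul_comm]
    rw [a4]
    abel
  rw [h1]
  module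

theorem wts : WTS_stmt := by
  intro P
  obtain ⟨hb, hnt⟩ := nt_bound P
  obtain ⟨h1, h2⟩ := np1 P
  have hn := nn_ge P
  have htot : wtot (wX P) ≤ 1 := by
    refine (wX_tot P).trans ?_
    rw [div_le_one (by positivity)]
    linarith
  refine ⟨by linarith, h1, by nlinarith, hnt, wH_nonneg P, wH_comm P, wH_self P, qH_nonneg P,
    rH_nonneg P, ?_, nu_eq P, wX_comm P, wX_nonneg P, wX_self P, wX_row P, htot⟩
  rw [tot_split]
  have h3 : rH P * P.Mn / 2 ≤ 1 / (2 * nt P) := by
    unfold rH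
    have hM := dM_ge P
    have hMn := Mn_ge P
    have : 1 / (2 * nt P) * (2 / (dM P : ℝ)) * P.Mn / 2 = 1 / (2 * nt P) * (P.Mn / (dM P : ℝ)) := by
      ring
    rw [this]
    have h4 : (P.Mn : ℝ) / (dM P : ℝ) ≤ 1 := by
      rw [div_le_one (by linarith)]
      exact hM
    calc 1 / (2 * nt P) * (P.Mn / (dM P : ℝ)) ≤ 1 / (2 * nt P) * 1 := by gcongr
      _ = _ := mul_one _
  have h5 := wX_tot P
  have h6 : nn P / (2 * nt P) + 1 / (2 * nt P) ≤ 1 := by
    rw [← add_div, div_le_one (by positivity)]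
    exact hb
  linarith

end H72C.Helper22
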